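import Mathlib
import Pool.Agent.X53.Frag.Main

/-!
# MP_1b53c2_co, Q1: fractionally tree-α-fragile classes have bounded independence degeneracy
-/

namespace Pool.Agent.Results.MP_1b53c2_co.FragileIdeg

/-- `α(G[X]) ≤ k`: every independent finite set of vertices contained in `X` has at most `k`
elements. -/
def AlphaAtMost {V : Type} (G : SimpleGraph V) (X : Set V) (k : ℕ) : Prop :=
  ∀ A : Finset V, (∀ a ∈ A, a ∈ X) → (∀ a ∈ A, ∀ b ∈ A, ¬ G.Adj a b) → A.card ≤ k

/-- Tree decompositions of `G`. -/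
structure TreeDecomposition {V : Type} (G : SimpleGraph V) where
  /-- the nodes of the tree -/
  Node : Type
  /-- the tree -/
  tree : SimpleGraph Node
  isTree : tree.IsTree
  /-- the bags -/
  bag : Node → Set V
  vertex_mem : ∀ v, ∃ t, v ∈ bag t
  edge_mem : ∀ u v, G.Adj u v → ∃ t, u ∈ bag t ∧ v ∈ bag t
  conn : ∀ v, (tree.induce {t | v ∈ bag t}).Preconnected

/-- `tree-α(G) ≤ k`. -/
def TreeAlphaAtMost {V : Type} (G : SimpleGraph V) (k : ℕ) : Prop :=
  ∃ D : TreeDecomposition G, ∀ t, AlphaAtMost G (D.bag t) k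

/-- The family `G i` of graphs is fractionally tree-α-fragile with function `f`: for each positive
integer `r`, every member has a `(1 - 1/r)`-general cover (a nonempty multiset `C 0, ..., C (m-1)`
of vertex sets such that every vertex lies in at least `(1 - 1/r) m` of them) all of whose members
induce subgraphs of tree-independence number at most `f r`. -/
def FragileWith {ι : Type} {V : ι → Type} (G : ∀ i, SimpleGraph (V i)) (f : ℕ → ℕ) : Prop :=
  ∀ r : ℕ, 0 < r → ∀ i, ∃ (m : ℕ) (C : Fin m → Set (V i)), 0 < m ∧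
    (∀ v, (1 - 1 / (r : ℚ)) * m ≤ Nat.card {c : Fin m // v ∈ C c}) ∧
    ∀ c, TreeAlphaAtMost ((G i).induce (C c)) (f r)

/-- The independence degeneracy of `G` is at most `k`: every nonnull induced subgraph has a vertex
whose neighbourhood in it has independence number at most `k`. -/
def IdegAtMost {V : Type} (G : SimpleGraph V) (k : ℕ) : Prop :=
  ∀ S : Set V, S.Nonempty → ∃ v ∈ S, AlphaAtMost G {w | w ∈ S ∧ G.Adj v w} k

/-- Every fractionally tree-α-fragile class of finite graphs has bounded independence degeneracy;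
if the class is fragile with function `f` then `8 f(4)^2 + 6 f(4)` is a bound. -/
theorem result {ι : Type} (V : ι → Type) [∀ i, Finite (V i)] (G : ∀ i, SimpleGraph (V i)) :
    ((∃ f : ℕ → ℕ, FragileWith G f) → ∃ k, ∀ i, IdegAtMost (G i) k) ∧
    ∀ f : ℕ → ℕ, FragileWith G f → ∀ i, IdegAtMost (G i) (8 * f 4 ^ 2 + 6 * f 4) := by
  classical
  have key : ∀ f : ℕ → ℕ, FragileWith G f → ∀ i, IdegAtMost (G i) (8 * f 4 ^ 2 + 6 * f 4) := by
    intro f hf i S hS
    obtain ⟨m, C, hm, hcov, hC⟩ := hf 4 (by norm_num) i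
    have hfin := Fintype.ofFinite (V i)
    have hcov' : ∀ v, 3 * m ≤ 4 * (Finset.univ.filter (fun c => v ∈ C c)).card := by
      intro v
      have h1 := hcov v
      rw [Nat.card_eq_fintype_card, Fintype.card_subtype] at h1
      have h2 : (3 : ℚ) * m ≤ 4 * ((Finset.univ.filter (fun c => v ∈ C c)).card : ℚ) := by
        have h3 : (1 - 1 / ((4 : ℕ) : ℚ)) = 3 / 4 := by norm_num
        rw [h3] at h1
        linarith
      exact_mod_cast h2
    have hC' : ∀ c, Pool.Agent.X53.Frag.TreeAlphaLE ((G i).induce (C c)) (f 4) := by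
      intro c
      obtain ⟨D, hD⟩ := hC c
      exact ⟨D.Node, D.tree, D.bag, D.isTree, D.vertex_mem, D.edge_mem, D.conn,
        fun t A h1 h2 => hD t A h1 h2⟩
    obtain ⟨v, hv, hJ⟩ := Pool.Agent.X53.Frag.main (G i) (f 4) m hm C hcov' hC' S hS
    exact ⟨v, hv, fun A h1 h2 => hJ A h1 h2⟩
  exact ⟨fun ⟨f, hf⟩ => ⟨_, key f hf⟩, key⟩

end Pool.Agent.Results.MP_1b53c2_co.FragileIdeg
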